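import Pool.Agent.H27.Mad2

set_option autoImplicit false

namespace Pool.Agent.Results.MP_0f9677_co.Clique

open Pool.Agent.H27.Mad Finset

/-- maximum average degree -/
noncomputable def Mad {V : Type*} (G : SimpleGraph V) : ℝ :=
  sSup {d | ∃ H : G.Subgraph, H.verts.Nonempty ∧ d = 2 * H.edgeSet.ncard / H.verts.ncard}

/-- a clique on the first `x` vertices and `n - x` isolated vertices -/
def K (n x : ℕ) : SimpleGraph (Fin n) := SimpleGraph.fromRel fun i j => i.1 < x ∧ j.1 < x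

/-- the candidate value -/
noncomputable def g (n x : ℕ) : ℝ := (x - 1) * (n - x) * (n + x - 1) / n

theorem fin {V : Type*} [Finite V] (G : SimpleGraph V) : Set.Finite
    {d : ℝ | ∃ H : G.Subgraph, H.verts.Nonempty ∧ d = 2 * H.edgeSet.ncard / H.verts.ncard} :=
  (Set.finite_range fun H : G.Subgraph => (2 * H.edgeSet.ncard / H.verts.ncard : ℝ)).subset
    fun _ ⟨H, _, e⟩ => ⟨H, e.symm⟩

theorem att {V : Type*} [Finite V] [Nonempty V] (G : SimpleGraph V) :
    ∃ H : G.Subgraph, H.verts.Nonempty ∧ Mad G = 2 * H.edgeSet.ncard / H.verts.ncard :=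
  Set.Nonempty.csSup_mem (by exact ⟨_, ⊤, Set.univ_nonempty, rfl⟩) (fin G)

theorem up (n : ℕ) (hn : 1 ≤ n) (G : SimpleGraph (Fin n)) :
    ∃ k, 1 ≤ k ∧ k ≤ n ∧ Mad G * Mad Gᶜ ≤ g n k := by
  have : Nonempty (Fin n) := ⟨⟨0, hn⟩⟩
  obtain ⟨H, hH, e1⟩ := att G
  obtain ⟨L, hL, e2⟩ := att Gᶜ
  rw [e1, e2]
  by_cases h3 : 3 ≤ n
  · obtain ⟨k, h1, h2, h⟩ := upper G (by simpa) H L hH hL
    refine ⟨k, h1, by simpa using h2, ?_⟩
    rw [Fintype.card_fin] at h
    rw [g, le_div_iff₀ (by positivity)]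
    linarith
  · refine ⟨1, le_rfl, hn, ?_⟩
    have : H.edgeSet = ∅ ∨ L.edgeSet = ∅ := by
      by_contra hc
      push Not at hc
      obtain ⟨⟨e, he⟩, ⟨f, hf⟩⟩ := hc
      induction e using Sym2.ind with | _ a b => ?_
      induction f using Sym2.ind with | _ c d => ?_
      have h1 := H.adj_sub he
      have h2 := L.adj_sub hf
      have h4 : a.1 ≠ b.1 := fun e => h1.ne (Fin.ext e)
      have h5 : c.1 ≠ d.1 := fun e => h2.ne (Fin.ext e)
      have := a.2; have := b.2; have := c.2; have := d.2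
      by_cases hh : a.1 = c.1
      · obtain rfl : a = c := Fin.ext hh
        obtain rfl : b = d := Fin.ext (by omega)
        exact h2.2 h1
      · obtain rfl : a = d := Fin.ext (by omega)
        obtain rfl : b = c := Fin.ext (by omega)
        exact h2.2 h1.symm
    rcases this with h | h <;> simp [h, g]

theorem low (n x : ℕ) (h1 : 1 ≤ x) (hx : x ≤ n) : g n x ≤ Mad (K n x) * Mad (K n x)ᶜ := by
  classical
  set S : Finset (Fin n) := univ.filter fun i => i.1 < x with hS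
  have hc : S.card = x := by simp [hS, Fin.card_filter_val_lt, hx]
  have h1' : (1 : ℝ) ≤ x := by exact_mod_cast h1
  have hx' : (x : ℝ) ≤ n := by exact_mod_cast hx
  have a1 : (x : ℝ) - 1 ≤ Mad (K n x) := by
    refine le_csSup (fin _).bddAbove ⟨(⊤ : (K n x).Subgraph).induce S, ⟨⟨0, by omega⟩, by
      simp [hS]; omega⟩, ?_⟩
    have e := two_e' ((⊤ : (K n x).Subgraph).induce S) S.offDiag fun p => by
      rw [SimpleGraph.Subgraph.induce_adj, SimpleGraph.Subgraph.top_adj]; simp [hS, K]; tauto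
    rw [cast_off, hc] at e
    rw [e, SimpleGraph.Subgraph.induce_verts, Set.ncard_coe_finset, hc]
    field_simp
  have a2 : ((n : ℝ) - x) * (n + x - 1) / n ≤ Mad (K n x)ᶜ := by
    refine le_csSup (fin _).bddAbove ⟨⊤, ⟨⟨0, by omega⟩, trivial⟩, ?_⟩
    have e := two_e' (⊤ : (K n x)ᶜ.Subgraph) (univ.offDiag \ S.offDiag) fun p => by
      rw [SimpleGraph.Subgraph.top_adj]; simp [hS, K, Fin.ext_iff]; omega
    rw [cast_card_sdiff (offDiag_mono (subset_univ _)), cast_off, cast_off, hc] at e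
    rw [e]
    simp
    ring
  have : g n x = (x - 1) * ((n - x) * (n + x - 1) / n) := by rw [g]; ring
  rw [this]
  exact mul_le_mul a1 a2 (div_nonneg (mul_nonneg (by linarith) (by linarith)) (by linarith))
    (by linarith)

theorem result (n : ℕ) (hn : 1 ≤ n) :
    ∃ x, 1 ≤ x ∧ x ≤ n ∧ (∀ y, 1 ≤ y → y ≤ n → g n y ≤ g n x) ∧
      Mad (K n x) * Mad (K n x)ᶜ = g n x ∧
      ∀ G : SimpleGraph (Fin n), Mad G * Mad Gᶜ ≤ g n x := by
  obtain ⟨x, hx, hm⟩ := exists_max_image (Icc 1 n) (g n) ⟨1, by simp [hn]⟩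
  rw [mem_Icc] at hx
  have hu : ∀ G : SimpleGraph (Fin n), Mad G * Mad Gᶜ ≤ g n x := fun G => by
    obtain ⟨k, h1, h2, h⟩ := up n hn G
    exact h.trans (hm k (mem_Icc.2 ⟨h1, h2⟩))
  exact ⟨x, hx.1, hx.2, fun y h1 h2 => hm y (mem_Icc.2 ⟨h1, h2⟩),
    le_antisymm (hu _) (low n x hx.1 hx.2), hu⟩

end Pool.Agent.Results.MP_0f9677_co.Clique
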